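import Pool.Agent.H24.AB.Loc

/-!
Brun-Titchmarsh for almost all subintervals of EVERY interval `(M, M + N]`, at all scales at once,
with the bound `(4 + δ) H / log (N H)`.
-/

namespace Pool.Agent.H24.Kept.AlmostAllBT

/-- For every `δ > 0` there are `κ, C > 0` such that for all integers `M ≥ 0`, `N ≥ 2` and all real
`1 ≤ W ≤ N ^ κ`, at most `C N (log N) ^ 18 / W` of the integers `n ∈ (M, M + N]` have a real `H` with
`W ≤ H ≤ N` and `π(n + H) - π(n) > (4 + δ) H / log (N H)`. -/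
theorem result (δ : ℝ) (hδ : 0 < δ) : ∃ κ C : ℝ, 0 < κ ∧ 0 < C ∧ ∀ M N : ℕ, 2 ≤ N →
    ∀ W : ℝ, 1 ≤ W → W ≤ (N : ℝ) ^ κ →
    ({n : ℕ | M < n ∧ n ≤ M + N ∧ ∃ H : ℝ, W ≤ H ∧ H ≤ N ∧
      (4 + δ) * (H / Real.log (N * H)) <
        (((Finset.Ioc n ⌊(n : ℝ) + H⌋₊).filter Nat.Prime).card : ℝ)}.ncard : ℝ) ≤
      C * N * (Real.log N) ^ 18 / W :=
  Pool.Agent.H24.AB.loc_bt δ hδ

end Pool.Agent.H24.Kept.AlmostAllBT
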