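import Pool.Agent.H24.AB.PropTwo

/-!
An explicit proportion of the integers `n` see, to their right, at least `1 - δ` times the expected
number of primes at all scales `H` from a power of `log n` to `n` at once, together with the upper
bound `(4 + η) H / log (n H)`.
-/

namespace Pool.Agent.H24.Kept.ExplicitProportion

/-- For `0 < δ < 1` and `η > 0` there is an `A` such that for all large `X`, at least
`(δ / (3 + δ) - η) X` of the integers `n ∈ (X, 2 X]` satisfy
`(1 - δ) H / log n ≤ π(n + H) - π(n) ≤ (4 + η) H / log (n H)`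
for all real `H` with `(log n) ^ A ≤ H ≤ n` at once. -/
theorem result (δ η : ℝ) (hδ : 0 < δ) (hδ1 : δ < 1) (hη : 0 < η) :
    ∃ A : ℝ, 0 < A ∧ ∃ X0 : ℕ, ∀ X : ℕ, X0 ≤ X →
    (δ / (3 + δ) - η) * X ≤ ({n : ℕ | X < n ∧ n ≤ 2 * X ∧ ∀ H : ℝ, (Real.log n) ^ A ≤ H → H ≤ n →
      (1 - δ) * (H / Real.log n) ≤
        (((Finset.Ioc n ⌊(n : ℝ) + H⌋₊).filter Nat.Prime).card : ℝ) ∧
      (((Finset.Ioc n ⌊(n : ℝ) + H⌋₊).filter Nat.Prime).card : ℝ) ≤
        (4 + η) * (H / Real.log (n * H))}.ncard : ℝ) :=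
  Pool.Agent.H24.AB.prop_two δ η hδ hδ1 hη

end Pool.Agent.H24.Kept.ExplicitProportion
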